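import Pool.Agent.Y80.KM.JobDefs

set_option autoImplicit false

open scoped BigOperators

/-! Job ALT2 of project KM: the Jacobi identity for traceless `3 × 3` matrices over an
alternative algebra. -/

namespace Pool.Agent.Y26.KM

open Pool.Agent.Y80.KM

section general

variable {A B : Type*} [AddCommGroup A] [AddCommGroup B]

set_option maxHeartbeats 4000000 in
/-- the polarised Cayley–Hamilton identity, tensor form, off-diagonal and diagonal entries -/
theorem ch_tensor (T : A →+ A →+ A →+ B) (M N P : Fin 3 → Fin 3 → A)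
    (hM : M 0 0 + M 1 1 + M 2 2 = 0) (hN : N 0 0 + N 1 1 + N 2 2 = 0)
    (hP : P 0 0 + P 1 1 + P 2 2 = 0) (k l : Fin 3) :
    (3 : ℕ) • (∑ i, ∑ j, (T (M k i) (N i j) (P j l) + T (M i j) (N k i) (P j l)
        + T (M k i) (N j l) (P i j) + T (M j l) (N i j) (P k i) + T (M i j) (N j l) (P k i)
        + T (M j l) (N k i) (P i j)))
      - (3 : ℕ) • (∑ i, ∑ j, (T (M i j) (N j i) (P k l) + T (M k l) (N i j) (P j i)
        + T (M i j) (N k l) (P j i)))
      - (if k = l then
          (3 : ℕ) • ∑ m, ∑ i, ∑ j, (T (M m i) (N i j) (P j m) + T (M i j) (N m i) (P j m))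
         else 0) = 0 := by
  have hM' : M 2 2 = - M 0 0 - M 1 1 := by
    rw [eq_comm, ← sub_eq_zero, ← neg_eq_zero, ← hM]; abel
  have hN' : N 2 2 = - N 0 0 - N 1 1 := by
    rw [eq_comm, ← sub_eq_zero, ← neg_eq_zero, ← hN]; abel
  have hP' : P 2 2 = - P 0 0 - P 1 1 := by
    rw [eq_comm, ← sub_eq_zero, ← neg_eq_zero, ← hP]; abel
  fin_cases k <;> fin_cases l <;>
  · simp only [Fin.sum_univ_three, Fin.zero_eta, Fin.mk_one, Fin.reduceFinMk, Fin.isValue]
    rw [hM', hN', hP']
    generalize M 0 0 = m00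
    generalize M 0 1 = m01
    generalize M 0 2 = m02
    generalize M 1 0 = m10
    generalize M 1 1 = m11
    generalize M 1 2 = m12
    generalize M 2 0 = m20
    generalize M 2 1 = m21
    generalize N 0 0 = n00
    generalize N 0 1 = n01
    generalize N 0 2 = n02
    generalize N 1 0 = n10
    generalize N 1 1 = n11
    generalize N 1 2 = n12
    generalize N 2 0 = n20
    generalize N 2 1 = n21
    generalize P 0 0 = p00
    generalize P 0 1 = p01
    generalize P 0 2 = p02
    generalize P 1 0 = p10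
    generalize P 1 1 = p11
    generalize P 1 2 = p12
    generalize P 2 0 = p20
    generalize P 2 1 = p21
    simp only [map_sub, map_neg, AddMonoidHom.sub_apply, AddMonoidHom.neg_apply,
      if_true, if_false, Fin.isValue, Fin.reduceEq, one_ne_zero, zero_ne_one]
    abel

/-- the six-term trace in terms of the two-term one -/
theorem tr_tensor (T : A →+ A →+ A →+ B) (M N P : Fin 3 → Fin 3 → A) :
    ∑ m, (∑ i, ∑ j, (T (M m i) (N i j) (P j m) + T (M i j) (N m i) (P j m)
        + T (M m i) (N j m) (P i j) + T (M j m) (N i j) (P m i) + T (M i j) (N j m) (P m i)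
        + T (M j m) (N m i) (P i j))) =
      (3 : ℕ) • ∑ m, ∑ i, ∑ j, (T (M m i) (N i j) (P j m) + T (M i j) (N m i) (P j m)) := by
  simp only [Fin.sum_univ_three]
  abel

end general

section alt

variable {k A : Type*} [Field k] [CharZero k] [NonUnitalNonAssocRing A] [Module k A]
  [IsScalarTower k A A] [SMulCommClass k A A]

/-- the associator as a trilinear map -/
abbrev tt (A : Type*) [NonUnitalNonAssocRing A] : A →+ A →+ A →+ A := AddMonoidHom.associator

theorem tt_apply (x y z : A) : tt A x y z = (x * y) * z - x * (y * z) := rfl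

theorem tt12 (h1 : ∀ a b : A, (a * a) * b = a * (a * b)) (x y z : A) :
    tt A y x z = - tt A x y z := by
  have h : ∀ a b : A, tt A a a b = 0 := fun a b => by rw [tt_apply, h1, sub_self]
  have := h (x + y) z
  simp only [map_add, AddMonoidHom.add_apply, h, zero_add, add_zero] at this
  exact eq_neg_of_add_eq_zero_left (by rw [← this])

theorem tt23 (h2 : ∀ a b : A, (b * a) * a = b * (a * a)) (x y z : A) :
    tt A x z y = - tt A x y z := by
  have h : ∀ a b : A, tt A b a a = 0 := fun a b => by rw [tt_apply, h2, sub_self]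
  have := h (y + z) x
  simp only [map_add, AddMonoidHom.add_apply, h, zero_add, add_zero] at this
  exact eq_neg_of_add_eq_zero_left (by rw [← this])

theorem dop_eq (h1 : ∀ a b : A, (a * a) * b = a * (a * b))
    (h2 : ∀ a b : A, (b * a) * a = b * (a * a)) (p q r : A) :
    dop p q r = (p * q - q * p) * r - r * (p * q - q * p) - (3 : ℕ) • tt A p q r := by
  have e1 : p * (q * r) = (p * q) * r - tt A p q r := by rw [tt_apply]; abel
  have e2 : q * (p * r) = (q * p) * r + tt A p q r := by
    rw [← neg_neg (tt A p q r), ← tt12 h1 p q r, tt_apply]; abel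
  have e3 : (r * q) * p = r * (q * p) - tt A p q r := by
    have : tt A r q p = - tt A p q r := by
      rw [tt12 h1 q r p, tt23 h2 q p r, tt12 h1 p q r]; abel
    rw [← neg_neg (tt A p q r), ← this, tt_apply]; abel
  have e4 : (r * p) * q = r * (p * q) + tt A p q r := by
    have : tt A r p q = tt A p q r := by
      rw [tt12 h1 p r q, tt23 h2 p q r]; abel
    rw [← this, tt_apply]; abel
  have e5 : p * (r * q) - (p * r) * q = tt A p q r := by
    have : tt A p r q = - tt A p q r := tt23 h2 p q r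
    rw [← neg_neg (tt A p q r), ← this, tt_apply]; abel
  have e6 : p * (r * q) - (p * r) * q = tt A p q r := e5
  unfold dop
  rw [e6, e1, e2, e3, e4]
  simp only [sub_mul, mul_sub]
  abel

variable (k)

/-- commutator of matrices -/
def cm (M N : Matrix (Fin 3) (Fin 3) A) : Matrix (Fin 3) (Fin 3) A := M * N - N * M

/-- triple associator of matrices -/
theorem trip (M N P : Matrix (Fin 3) (Fin 3) A) (a b : Fin 3) :
    ((M * N) * P - M * (N * P)) a b = ∑ i, ∑ j, tt A (M a i) (N i j) (P j b) := by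
  simp only [Matrix.sub_apply, Matrix.mul_apply, tt_apply, Finset.sum_sub_distrib,
    Finset.sum_mul, Finset.mul_sum]
  congr 1
  exact Finset.sum_comm

theorem cyc6 (M N P : Matrix (Fin 3) (Fin 3) A) :
    cm (cm M N) P + cm (cm N P) M + cm (cm P M) N =
      ((M * N) * P - M * (N * P)) - ((N * M) * P - N * (M * P)) + ((N * P) * M - N * (P * M))
      - ((P * N) * M - P * (N * M)) + ((P * M) * N - P * (M * N))
      - ((M * P) * N - M * (P * N)) := by
  simp only [cm, sub_mul, mul_sub]
  abel

theorem cyc6_apply (h1 : ∀ a b : A, (a * a) * b = a * (a * b))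
    (h2 : ∀ a b : A, (b * a) * a = b * (a * a)) (M N P : Matrix (Fin 3) (Fin 3) A)
    (k l : Fin 3) :
    (cm (cm M N) P + cm (cm N P) M + cm (cm P M) N) k l =
      ∑ i, ∑ j, (tt A (M k i) (N i j) (P j l) + tt A (M i j) (N k i) (P j l)
        + tt A (M k i) (N j l) (P i j) + tt A (M j l) (N i j) (P k i)
        + tt A (M i j) (N j l) (P k i) + tt A (M j l) (N k i) (P i j)) := by
  have s12 := fun x y z => tt12 h1 (A := A) x y z
  have s23 := fun x y z => tt23 h2 (A := A) x y z
  rw [cyc6]
  have e1 := trip M N P k l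
  have e2 := trip N M P k l
  have e3 := trip N P M k l
  have e4 := trip P N M k l
  have e5 := trip P M N k l
  have e6 := trip M P N k l
  generalize (M * N) * P - M * (N * P) = X1 at *
  generalize (N * M) * P - N * (M * P) = X2 at *
  generalize (N * P) * M - N * (P * M) = X3 at *
  generalize (P * N) * M - P * (N * M) = X4 at *
  generalize (P * M) * N - P * (M * N) = X5 at *
  generalize (M * P) * N - M * (P * N) = X6 at *
  simp only [Matrix.add_apply, Matrix.sub_apply]
  rw [e1, e2, e3, e4, e5, e6]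
  simp only [← Finset.sum_sub_distrib, ← Finset.sum_add_distrib]
  refine Finset.sum_congr rfl fun i _ => Finset.sum_congr rfl fun j _ => ?_
  rw [s12 (M i j) (N k i) (P j l), s23 (N k i) (M j l) (P i j), s12 (M j l) (N k i) (P i j),
    s12 (N i j) (P k i) (M j l), s23 (N i j) (M j l) (P k i), s12 (M j l) (N i j) (P k i),
    s12 (M i j) (P k i) (N j l), s23 (M i j) (N j l) (P k i),
    s23 (M k i) (N j l) (P i j)]
  abel

theorem tr_cm_smul (s : A) (P : Matrix (Fin 3) (Fin 3) A) (hP : P.trace = 0) :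
    (cm (Matrix.diagonal fun _ => s) P).trace = 0 := by
  have : (cm (Matrix.diagonal fun _ => s) P).trace = s * P.trace - P.trace * s := by
    simp only [cm, Matrix.trace, Matrix.diag, Matrix.sub_apply, Matrix.diagonal_mul,
      Matrix.mul_diagonal, Finset.sum_sub_distrib, Finset.mul_sum, Finset.sum_mul]
  rw [this, hP, mul_zero, zero_mul, sub_zero]

omit [IsScalarTower k A A] [SMulCommClass k A A] in
theorem cbr_cbr (M N P : Matrix (Fin 3) (Fin 3) A) (hP : P.trace = 0) :
    cbr k (cbr k M N) P = cm (cm M N) P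
      - cm (Matrix.diagonal fun _ => (3 : k)⁻¹ • (cm M N).trace) P
      - Matrix.diagonal fun _ => (3 : k)⁻¹ • (cm (cm M N) P).trace := by
  have h : ∀ X Y : Matrix (Fin 3) (Fin 3) A, cbr k X Y = cm X Y -
      Matrix.diagonal fun _ => (3 : k)⁻¹ • (cm X Y).trace := by
    intro X Y
    unfold cbr cm
    norm_num
  rw [h (cbr k M N) P, h M N]
  have e : cm (cm M N - Matrix.diagonal fun _ => (3 : k)⁻¹ • (cm M N).trace) P =
      cm (cm M N) P - cm (Matrix.diagonal fun _ => (3 : k)⁻¹ • (cm M N).trace) P := by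
    simp only [cm, sub_mul, mul_sub]
    abel
  rw [e, Matrix.trace_sub, tr_cm_smul _ _ hP, sub_zero]

theorem dmat_apply (h1 : ∀ a b : A, (a * a) * b = a * (a * b))
    (h2 : ∀ a b : A, (b * a) * a = b * (a * a)) (M N P : Matrix (Fin 3) (Fin 3) A)
    (a b : Fin 3) :
    dmat M N P a b = (cm M N).trace * P a b - P a b * (cm M N).trace
      - (3 : ℕ) • ∑ i, ∑ j, tt A (M i j) (N j i) (P a b) := by
  have ht : (cm M N).trace = ∑ i, ∑ j, (M i j * N j i - N j i * M i j) := by
    simp only [cm, Matrix.trace, Matrix.diag, Matrix.sub_apply, Matrix.mul_apply,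
      Finset.sum_sub_distrib]
    congr 1
    exact Finset.sum_comm
  rw [ht, Finset.sum_mul, Finset.mul_sum, Finset.smul_sum, ← Finset.sum_sub_distrib,
    ← Finset.sum_sub_distrib]
  simp only [dmat, Matrix.of_apply]
  refine Finset.sum_congr rfl fun i _ => ?_
  rw [Finset.sum_mul, Finset.mul_sum, Finset.smul_sum, ← Finset.sum_sub_distrib,
    ← Finset.sum_sub_distrib]
  exact Finset.sum_congr rfl fun j _ => dop_eq h1 h2 _ _ _

theorem half (h1 : ∀ a b : A, (a * a) * b = a * (a * b))
    (h2 : ∀ a b : A, (b * a) * a = b * (a * a)) (M N P : Matrix (Fin 3) (Fin 3) A)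
    (hP : P.trace = 0) (a b : Fin 3) :
    (3 : ℕ) • ((cbr k (cbr k M N) P + (3 : k)⁻¹ • dmat M N P) a b) =
      (3 : ℕ) • (cm (cm M N) P) a b
      - (if a = b then (cm (cm M N) P).trace else 0)
      - (3 : ℕ) • ∑ i, ∑ j, tt A (M i j) (N j i) (P a b) := by
  have h3 : (3 : k) ≠ 0 := by norm_num
  have hs : ∀ x : A, (3 : ℕ) • ((3 : k)⁻¹ • x) = x := by
    intro x
    rw [← Nat.cast_smul_eq_nsmul k, smul_smul]
    norm_num
  rw [cbr_cbr k M N P hP, Matrix.add_apply, Matrix.sub_apply, Matrix.sub_apply,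
    Matrix.smul_apply, dmat_apply h1 h2, smul_add, smul_sub, smul_sub, hs]
  have e1 : (cm (Matrix.diagonal fun _ => (3 : k)⁻¹ • (cm M N).trace) P) a b =
      (3 : k)⁻¹ • ((cm M N).trace * P a b - P a b * (cm M N).trace) := by
    simp only [cm, Matrix.sub_apply, Matrix.diagonal_mul, Matrix.mul_diagonal, smul_mul_assoc,
      mul_smul_comm, smul_sub]
  have e2 : (3 : ℕ) • (Matrix.diagonal (fun _ : Fin 3 => (3 : k)⁻¹ • (cm (cm M N) P).trace)) a b =
      if a = b then (cm (cm M N) P).trace else 0 := by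
    rw [Matrix.diagonal_apply]
    split_ifs
    · exact hs _
    · exact smul_zero _
  rw [e1, hs, e2]
  abel

variable {k} in
/-- Jacobi identity for traceless `3 × 3` matrices over an alternative algebra -/
theorem jacobi3 (h1 : ∀ a b : A, (a * a) * b = a * (a * b))
    (h2 : ∀ a b : A, (b * a) * a = b * (a * a))
    (M N P : Matrix (Fin 3) (Fin 3) A) (hM : M.trace = 0) (hN : N.trace = 0) (hP : P.trace = 0) :
    (cbr k (cbr k M N) P + cbr k (cbr k N P) M + cbr k (cbr k P M) N) +
      (3 : k)⁻¹ • (dmat M N P + dmat N P M + dmat P M N) = 0 := by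
  ext a b
  have h3 : (3 : k) ≠ 0 := by norm_num
  have hinj : ∀ x : A, (3 : ℕ) • x = 0 → x = 0 := by
    intro x hx
    rw [← Nat.cast_smul_eq_nsmul k] at hx
    rcases smul_eq_zero.mp hx with h | h
    · exact absurd h (by norm_num)
    · exact h
  rw [Matrix.zero_apply]
  apply hinj
  have e : ((cbr k (cbr k M N) P + cbr k (cbr k N P) M + cbr k (cbr k P M) N) +
      (3 : k)⁻¹ • (dmat M N P + dmat N P M + dmat P M N)) =
      (cbr k (cbr k M N) P + (3 : k)⁻¹ • dmat M N P) +
      (cbr k (cbr k N P) M + (3 : k)⁻¹ • dmat N P M) +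
      (cbr k (cbr k P M) N + (3 : k)⁻¹ • dmat P M N) := by
    rw [smul_add, smul_add]
    abel
  rw [e, Matrix.add_apply, Matrix.add_apply, smul_add, smul_add, half k h1 h2 M N P hP,
    half k h1 h2 N P M hM, half k h1 h2 P M N hN]
  have s12 := fun x y z => tt12 h1 (A := A) x y z
  have s23 := fun x y z => tt23 h2 (A := A) x y z
  have c1 := cyc6_apply h1 h2 M N P
  have key := ch_tensor (tt A) M N P
    (by rw [← hM, Matrix.trace, Fin.sum_univ_three]; rfl)
    (by rw [← hN, Matrix.trace, Fin.sum_univ_three]; rfl)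
    (by rw [← hP, Matrix.trace, Fin.sum_univ_three]; rfl) a b
  rw [← c1 a b] at key
  have ctr : (cm (cm M N) P).trace + (cm (cm N P) M).trace + (cm (cm P M) N).trace =
      (3 : ℕ) • ∑ m, ∑ i, ∑ j, (tt A (M m i) (N i j) (P j m) + tt A (M i j) (N m i) (P j m)) := by
    rw [← Matrix.trace_add, ← Matrix.trace_add]
    refine Eq.trans ?_ (tr_tensor (tt A) M N P)
    exact Finset.sum_congr rfl fun m _ => c1 m m
  rw [← ctr] at key
  have p1 : ∑ i, ∑ j, tt A (N i j) (P j i) (M a b) = ∑ i, ∑ j, tt A (M a b) (N i j) (P j i) := by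
    refine Finset.sum_congr rfl fun i _ => Finset.sum_congr rfl fun j _ => ?_
    rw [s23 (N i j) (M a b) (P j i), s12 (M a b) (N i j) (P j i), neg_neg]
  have p2 : ∑ i, ∑ j, tt A (P i j) (M j i) (N a b) = ∑ i, ∑ j, tt A (M i j) (N a b) (P j i) := by
    rw [Finset.sum_comm]
    refine Finset.sum_congr rfl fun i _ => Finset.sum_congr rfl fun j _ => ?_
    rw [s12 (M i j) (P j i) (N a b), s23 (M i j) (N a b) (P j i), neg_neg]
  rw [p1, p2]
  refine Eq.trans ?_ key
  simp only [Finset.sum_add_distrib, Matrix.add_apply]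
  split_ifs <;> abel

end alt

end Pool.Agent.Y26.KM
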